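import Mathlib

set_option autoImplicit false

open scoped Classical

namespace Pool.Agent.W770.KP

/-- Sum of `f` over the affine plane `a + W`. -/
noncomputable def PS {F E : Type} [Field F] [AddCommGroup E] [Module F E] [Fintype E]
    (f : E → ℝ) (a : E) (W : Submodule F E) : ℝ :=
  ∑ x : E, if x - a ∈ W then f x else 0

noncomputable instance instFintypeSub {F E : Type} [Field F] [AddCommGroup E] [Module F E]
    [Fintype E] : Fintype (Submodule F E) := Fintype.ofFinite _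

/-- The Grassmannian of `k`-dimensional subspaces, as a finset. -/
noncomputable def Gr (F E : Type) [Field F] [AddCommGroup E] [Module F E] [Fintype E] (k : ℕ) :
    Finset (Submodule F E) :=
  (Finset.univ : Finset (Submodule F E)).filter (fun W => Module.finrank F W = k)

/-- Linearised strong-type estimate for the `k`-plane maximal operator in dimension `n`. -/
def SA (n k : ℕ) : Prop :=
  ∃ C : ℝ, 0 < C ∧ ∀ (F E : Type) [Field F] [Fintype F] [AddCommGroup E] [Module F E] [Fintype E],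
    Module.finrank F E = n → ∀ f : E → ℝ, (∀ x, 0 ≤ f x) → ∀ a : Submodule F E → E,
      ∑ W ∈ Gr F E k, (PS f (a W) W) ^ n
        ≤ C * ((Gr F E k).card : ℝ) * (∑ x : E, (f x) ^ ((n : ℝ) / (k : ℝ))) ^ k

/-- number of points of the line `b + F v` on the union of the planes in `P`. -/
noncomputable def cnt {F E : Type} [Field F] [Fintype F] [AddCommGroup E] [Module F E]
    (P : Finset (E × Submodule F E)) (b v : E) : ℕ :=
  (Finset.univ.filter (fun t : F => ∃ p ∈ P, b + t • v - p.1 ∈ p.2)).card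

/-- Line-count estimate for unions of `k`-planes, all directions. -/
def L2 (n k : ℕ) : Prop :=
  ∃ C : ℝ, 0 < C ∧ ∀ (F E : Type) [Field F] [Fintype F] [AddCommGroup E] [Module F E] [Fintype E],
    Module.finrank F E = n → ∀ P : Finset (E × Submodule F E),
      (∀ p ∈ P, Module.finrank F p.2 = k) → ∀ b : E → E,
      ∑ v ∈ (Finset.univ : Finset E).filter (fun v => v ≠ 0), ((cnt P (b v) v : ℕ) : ℝ) ^ (n - k)
        ≤ C * (P.card : ℝ) * (Fintype.card F : ℝ) ^ n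

/-- The chart version of `L2`: directions `(1, y)`. -/
def ChartPl (m k : ℕ) : Prop :=
  ∃ C : ℝ, 0 < C ∧ ∀ (F : Type) [Field F] [Fintype F]
    (P : Finset ((Fin (m+1) → F) × Submodule F (Fin (m+1) → F))),
      (∀ p ∈ P, Module.finrank F p.2 = k) → ∀ b : (Fin m → F) → (Fin (m+1) → F),
      ∑ y : Fin m → F, ((cnt P (b y) (Fin.cons 1 y : Fin (m+1) → F) : ℕ) : ℝ) ^ (m + 1 - k)
        ≤ C * (P.card : ℝ) * (Fintype.card F : ℝ) ^ m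

/-- Chart version of the line maximal inequality, natural-number valued. -/
def ChartNat (m : ℕ) : Prop :=
  ∃ C : ℝ, 0 < C ∧ ∀ (F : Type) [Field F] [Fintype F] (g : (Fin (m+1) → F) → ℕ)
    (b : (Fin m → F) → (Fin (m+1) → F)),
      ∑ y : Fin m → F, ((∑ t : F, g (b y + t • (Fin.cons 1 y : Fin (m+1) → F)) : ℕ) : ℝ) ^ (m+1)
        ≤ C * (Fintype.card F : ℝ) ^ m * ∑ x : Fin (m+1) → F, ((g x : ℕ) : ℝ) ^ (m+1)

/-- Chart version of the line maximal inequality, real valued. -/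
def ChartReal (m : ℕ) : Prop :=
  ∃ C : ℝ, 0 < C ∧ ∀ (F : Type) [Field F] [Fintype F] (g : (Fin (m+1) → F) → ℝ), (∀ x, 0 ≤ g x) →
    ∀ b : (Fin m → F) → (Fin (m+1) → F),
      ∑ y : Fin m → F, (∑ t : F, g (b y + t • (Fin.cons 1 y : Fin (m+1) → F))) ^ (m+1)
        ≤ C * (Fintype.card F : ℝ) ^ m * ∑ x : Fin (m+1) → F, (g x) ^ (m+1)

/-- Line maximal inequality over all nonzero directions, abstract space. -/
def LineReal (n : ℕ) : Prop :=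
  ∃ C : ℝ, 0 < C ∧ ∀ (F E : Type) [Field F] [Fintype F] [AddCommGroup E] [Module F E] [Fintype E],
    Module.finrank F E = n → ∀ g : E → ℝ, (∀ x, 0 ≤ g x) → ∀ b : E → E,
      ∑ v ∈ (Finset.univ : Finset E).filter (fun v => v ≠ 0), (∑ t : F, g (b v + t • v)) ^ n
        ≤ C * (Fintype.card F : ℝ) ^ n * ∑ x : E, (g x) ^ n

/-- Translation of polynomials (Taylor shift): `P(z + X)`. -/
noncomputable def shift {F σ : Type} [Field F] (z : σ → F) (P : MvPolynomial σ F) :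
    MvPolynomial σ F :=
  MvPolynomial.bind₁ (fun i => MvPolynomial.X i + MvPolynomial.C (z i)) P

/-- Dehomogenisation `X_0 := 1`. -/
noncomputable def dehom {F : Type} [Field F] {m : ℕ} (P : MvPolynomial (Fin (m+1)) F) :
    MvPolynomial (Fin m) F :=
  MvPolynomial.aeval (Fin.cons 1 (fun i => MvPolynomial.X i) : Fin (m+1) → MvPolynomial (Fin m) F) P

/-- The finite linear combination `∑ c_s A_s`. -/
noncomputable def lc {F σ ι : Type} [Field F] [Fintype ι] (A : ι → MvPolynomial σ F) (c : ι → F) :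
    MvPolynomial σ F := ∑ s, MvPolynomial.C (c s) * A s

/-! ### Polynomial lemmas -/

/-- LL: the line lemma with multiplicities. -/
def S_LL : Prop :=
  ∀ (F : Type) [Field F] [Fintype F] (n : ℕ) (P : MvPolynomial (Fin n) F) (e : ℕ),
    P.totalDegree ≤ e → ∀ (g : (Fin n → F) → ℕ) (b v : Fin n → F), v ≠ 0 →
    (∀ t : F, ∀ α : Fin n →₀ ℕ, α.degree < g (b + t • v) → (shift (b + t • v) P).coeff α = 0) →
    2 * e < ∑ t : F, g (b + t • v) →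
    ∀ α : Fin n →₀ ℕ, α.degree * Fintype.card F ≤ e →
      (shift v (MvPolynomial.homogeneousComponent e P)).coeff α = 0

/-- LL2: the line lemma without multiplicities. -/
def S_LL2 : Prop :=
  ∀ (F : Type) [Field F] [Fintype F] (n : ℕ) (P : MvPolynomial (Fin n) F) (e : ℕ),
    P.totalDegree ≤ e → ∀ (b v : Fin n → F),
    e < (Finset.univ.filter (fun t : F => MvPolynomial.eval (b + t • v) P = 0)).card →
      MvPolynomial.eval v (MvPolynomial.homogeneousComponent e P) = 0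

/-- ILMA: interpolation, small degree. -/
def S_ILMA : Prop :=
  ∀ (m : ℕ), 0 < m → ∀ (F : Type) [Field F] [Fintype F] (Z : Finset (Fin m → F)) (e : ℕ),
    e < m * Fintype.card F →
    ∃ (N : ℕ) (A : Fin N → MvPolynomial (Fin m) F), (∀ s, (A s).totalDegree ≤ e) ∧
      ((Z.card : ℝ) * (((e:ℝ) + 1) / ((m:ℝ) * (Fintype.card F : ℝ))) ^ m ≤ (N : ℝ)) ∧
      ∀ c : Fin N → F, (∀ z ∈ Z, MvPolynomial.eval z (lc A c) = 0) → c = 0

/-- ILMB: interpolation with multiplicities, large degree. -/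
def S_ILMB : Prop :=
  ∀ (m : ℕ), 0 < m → ∀ (F : Type) [Field F] [Fintype F] (Z : Finset (Fin m → F)) (e : ℕ),
    m * Fintype.card F ≤ e →
    ∃ (N : ℕ) (A : Fin N → MvPolynomial (Fin m) F), (∀ s, (A s).totalDegree ≤ e) ∧
      ((Z.card : ℝ) * (((e:ℝ) + 1) / (2 * (m:ℝ) * (Fintype.card F : ℝ))) ^ m ≤ (N : ℝ)) ∧
      ∀ c : Fin N → F, (∀ z ∈ Z, ∀ α : Fin m →₀ ℕ, α.degree * Fintype.card F ≤ e →
        (shift z (lc A c)).coeff α = 0) → c = 0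

/-- ILS0: interpolation with slack, coordinate direction. -/
def S_ILS0 : Prop :=
  ∀ (m : ℕ) (F : Type) [Field F] [Fintype F] (Z : Finset (Fin (m+1) → F)) (d e : ℕ),
    2 * d ≤ e → e ≤ Fintype.card F →
    (∀ y : Fin m → F, (Finset.univ.filter (fun t : F => (Fin.cons t y : Fin (m+1) → F) ∈ Z)).card ≤ d) →
    ∃ (N : ℕ) (A : Fin N → MvPolynomial (Fin (m+1)) F), (∀ s, (A s).totalDegree ≤ e) ∧
      ((Z.card : ℝ) * ((e:ℝ) / (2 * ((m:ℝ)+1) * (Fintype.card F : ℝ))) ^ m ≤ (N : ℝ)) ∧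
      ∀ c : Fin N → F, (∀ z ∈ Z, MvPolynomial.eval z (lc A c) = 0) → c = 0

/-- ILS: interpolation with slack, general direction. -/
def S_ILS : Prop :=
  ∀ (m : ℕ) (F : Type) [Field F] [Fintype F] (Z : Finset (Fin (m+1) → F)) (u : Fin (m+1) → F),
    u ≠ 0 → ∀ (d e : ℕ), 2 * d ≤ e → e ≤ Fintype.card F →
    (∀ y : Fin (m+1) → F, (Finset.univ.filter (fun t : F => y + t • u ∈ Z)).card ≤ d) →
    ∃ (N : ℕ) (A : Fin N → MvPolynomial (Fin (m+1)) F), (∀ s, (A s).totalDegree ≤ e) ∧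
      ((Z.card : ℝ) * ((e:ℝ) / (2 * ((m:ℝ)+1) * (Fintype.card F : ℝ))) ^ m ≤ (N : ℝ)) ∧
      ∀ c : Fin N → F, (∀ z ∈ Z, MvPolynomial.eval z (lc A c) = 0) → c = 0

/-- CM: dimension count, multiplicities. -/
def S_CM : Prop :=
  ∀ (F : Type) [Field F] [Fintype F] (n : ℕ), 0 < n → ∀ (g : (Fin n → F) → ℕ) (ι : Type) [Fintype ι]
    (A : ι → MvPolynomial (Fin n) F), (∑ x : Fin n → F, (g x) ^ n) < Fintype.card ι →
    ∃ c : ι → F, c ≠ 0 ∧ ∀ x : Fin n → F, ∀ α : Fin n →₀ ℕ, α.degree < g x →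
      (shift x (lc A c)).coeff α = 0

/-- CP: dimension count, planes. -/
def S_CP : Prop :=
  ∀ (F : Type) [Field F] [Fintype F] (n k E : ℕ) (ι : Type) [Fintype ι]
    (A : ι → MvPolynomial (Fin n) F), (∀ s, (A s).totalDegree ≤ E) →
    ∀ P : Finset ((Fin n → F) × Submodule F (Fin n → F)), (∀ p ∈ P, Module.finrank F p.2 = k) →
    P.card * (E + k).choose k < Fintype.card ι →
    ∃ c : ι → F, c ≠ 0 ∧ ∀ p ∈ P, ∀ x : Fin n → F, x - p.1 ∈ p.2 →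
      MvPolynomial.eval x (lc A c) = 0

/-- HOM: homogenisation. -/
def S_HOM : Prop :=
  ∀ (F : Type) [Field F] (m e : ℕ) (A : MvPolynomial (Fin m) F), A.totalDegree ≤ e →
    ∃ B : MvPolynomial (Fin (m+1)) F, B.IsHomogeneous e ∧ dehom B = A

/-- SH: shift and dehomogenisation. -/
def S_SH : Prop :=
  ∀ (F : Type) [Field F] (m : ℕ) (B : MvPolynomial (Fin (m+1)) F) (y : Fin m → F)
    (α : Fin m →₀ ℕ),
    (shift y (dehom B)).coeff α = (shift (Fin.cons 1 y : Fin (m+1) → F) B).coeff (Finsupp.cons 0 α)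

/-- TOP: the top degree part of a combination of homogeneous families. -/
def S_TOP : Prop :=
  ∀ (F : Type) [Field F] (n : ℕ) (I : Finset ℕ) (N : ℕ → ℕ)
    (B : (e : ℕ) → Fin (N e) → MvPolynomial (Fin n) F), (∀ e s, (B e s).IsHomogeneous e) →
    ∀ c : ((e : I) × Fin (N (e : ℕ))) → F, c ≠ 0 →
    ∃ e : I, (fun s : Fin (N (e : ℕ)) => c ⟨e, s⟩) ≠ 0 ∧
      (lc (fun i : ((e : I) × Fin (N (e : ℕ))) => B (i.1 : ℕ) i.2) c).totalDegree ≤ (e : ℕ) ∧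
      MvPolynomial.homogeneousComponent (e : ℕ)
          (lc (fun i : ((e : I) × Fin (N (e : ℕ))) => B (i.1 : ℕ) i.2) c)
        = lc (B (e : ℕ)) (fun s : Fin (N (e : ℕ)) => c ⟨e, s⟩)

/-- LOW: a low degree polynomial vanishing on a union of planes. -/
def S_LOW : Prop :=
  ∀ (F : Type) [Field F] [Fintype F] (m k : ℕ), k ≤ m →
    ∀ P : Finset ((Fin (m+1) → F) × Submodule F (Fin (m+1) → F)),
    (∀ p ∈ P, Module.finrank F p.2 = k) →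
    ∃ Q : MvPolynomial (Fin (m+1)) F, Q ≠ 0 ∧
      (Q.totalDegree : ℝ) ^ (m + 1 - k) ≤ ((m:ℝ) + 1) ^ (m + 1 - k) * (P.card : ℝ) ∧
      ∀ p ∈ P, ∀ x : Fin (m+1) → F, x - p.1 ∈ p.2 → MvPolynomial.eval x Q = 0

/-- DIR: a good direction for a low degree polynomial. -/
def S_DIR : Prop :=
  ∀ (F : Type) [Field F] [Fintype F] (m : ℕ) (Q : MvPolynomial (Fin (m+1)) F), Q ≠ 0 →
    ∀ d : ℕ, Q.totalDegree ≤ d → d < Fintype.card F →
    ∃ u : Fin (m+1) → F, u ≠ 0 ∧ ∀ y : Fin (m+1) → F,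
      (Finset.univ.filter (fun t : F => MvPolynomial.eval (y + t • u) Q = 0)).card ≤ d

/-- LB: the level bound for a union of planes (here `m = j + 1` is the dimension of the chart). -/
def S_LB : Prop :=
  ∀ (j k : ℕ), 1 ≤ k → k ≤ j + 1 → ∃ C : ℝ, 0 < C ∧ ∀ (F : Type) [Field F] [Fintype F]
    (P : Finset ((Fin (j+2) → F) × Submodule F (Fin (j+2) → F))),
    (∀ p ∈ P, Module.finrank F p.2 = k) → ∀ b : (Fin (j+1) → F) → (Fin (j+2) → F),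
    ∀ Q : MvPolynomial (Fin (j+2)) F, Q ≠ 0 →
    (∀ p ∈ P, ∀ x : Fin (j+2) → F, x - p.1 ∈ p.2 → MvPolynomial.eval x Q = 0) →
    ∀ E : ℕ, 1 ≤ E → 4 * Q.totalDegree ≤ E → E < Fintype.card F →
      (((Finset.univ : Finset (Fin (j+1) → F)).filter
          (fun y => E < cnt P (b y) (Fin.cons 1 y : Fin (j+2) → F))).card : ℝ) * (E:ℝ) ^ (j + 1 - k)
        ≤ C * (P.card : ℝ) * (Fintype.card F : ℝ) ^ j

/-! ### Chart to global -/

/-- CHNA: the dimension inequality behind `ChartNat`. -/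
def S_CHNA : Prop :=
  ∀ (m : ℕ), 0 < m → ∀ (F : Type) [Field F] [Fintype F] (g : (Fin (m+1) → F) → ℕ)
    (b : (Fin m → F) → (Fin (m+1) → F)) (I : Finset ℕ),
    ∑ e ∈ I, (((Finset.univ : Finset (Fin m → F)).filter
        (fun y => 2 * e < ∑ t : F, g (b y + t • (Fin.cons 1 y : Fin (m+1) → F)))).card : ℝ)
          * (((e:ℝ) + 1) / (2 * (m:ℝ) * (Fintype.card F : ℝ))) ^ m
      ≤ ∑ x : Fin (m+1) → F, ((g x : ℕ) : ℝ) ^ (m+1)

def S_CHN : Prop := ∀ m : ℕ, 0 < m → ChartNat m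

def S_CHR : Prop := ∀ m : ℕ, ChartNat m → ChartReal m

def S_LR : Prop := ∀ m : ℕ, ChartReal m → LineReal (m + 1)

def S_SA1 : Prop := ∀ n : ℕ, 0 < n → LineReal n → SA n 1

def S_CHP : Prop := ∀ m k : ℕ, 1 ≤ k → k ≤ m → ChartPl m k

def S_L2 : Prop := ∀ m k : ℕ, ChartPl m k → L2 (m + 1) k

/-! ### Grassmannian counting -/

/-- GC: number of planes through a vector. -/
def S_GC : Prop :=
  ∀ (F E : Type) [Field F] [Fintype F] [AddCommGroup E] [Module F E] [Fintype E] (k : ℕ), 1 ≤ k →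
    ∀ v : E, v ≠ 0 →
      (((Gr F E k).filter (fun W => v ∈ W)).card : ℝ)
          * ((Fintype.card F : ℝ) ^ (Module.finrank F E) - 1)
        = ((Gr F E k).card : ℝ) * ((Fintype.card F : ℝ) ^ k - 1)

/-- AVG: averaging over the vectors of the planes. -/
def S_AVG : Prop :=
  ∀ (F E : Type) [Field F] [Fintype F] [AddCommGroup E] [Module F E] [Fintype E] (k : ℕ), 1 ≤ k →
    ∀ (Ψ : Submodule F E → ℝ) (β : E → ℝ),
    (∀ v : E, v ≠ 0 → ∑ W ∈ (Gr F E k).filter (fun W => v ∈ W), Ψ W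
        ≤ (((Gr F E k).filter (fun W => v ∈ W)).card : ℝ) * β v) →
    (∑ W ∈ Gr F E k, Ψ W) * ((Fintype.card F : ℝ) ^ (Module.finrank F E) - 1)
      ≤ ((Gr F E k).card : ℝ) * ∑ v ∈ (Finset.univ : Finset E).filter (fun v => v ≠ 0), β v

/-- ST1: planes through a fixed vector, by induction in the quotient. -/
def S_ST1 : Prop :=
  ∀ (n k : ℕ), 1 ≤ k → k < n → SA n k → ∃ C : ℝ, 0 < C ∧
    ∀ (F E : Type) [Field F] [Fintype F] [AddCommGroup E] [Module F E] [Fintype E],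
    Module.finrank F E = n + 1 → ∀ f : E → ℝ, (∀ x, 0 ≤ f x) → ∀ a : Submodule F E → E,
    ∀ v : E, v ≠ 0 →
      ∑ W ∈ (Gr F E (k+1)).filter (fun W => v ∈ W), (PS f (a W) W) ^ n
        ≤ C * (((Gr F E (k+1)).filter (fun W => v ∈ W)).card : ℝ)
          * ((∑ x : E, (∑ t : F, f (x + t • v)) ^ ((n : ℝ) / (k : ℝ))) / (Fintype.card F : ℝ)) ^ k

/-! ### Real inequalities -/

/-- PLL: the per-line inequality. -/
def S_PLL : Prop :=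
  ∀ (n k : ℕ), 1 ≤ k → k < n → ∃ C : ℝ, 0 < C ∧ ∀ (Λ : Finset ℤ) (u D : ℤ → ℝ),
    (∀ l, 0 ≤ u l) → (∀ l, 0 ≤ D l) → (∀ l, D l ≤ 2 * D (l+1)) →
    (∀ l ∈ Λ, (4:ℝ) ^ l * u l ≤ D l) →
    (∑ l ∈ Λ, (4:ℝ) ^ (l * ((k:ℤ) + 1)) * u l) ^ ((n:ℝ) / (k:ℝ))
      ≤ C * ∑ l ∈ Λ, (D l) ^ ((n:ℝ) / (k:ℝ) - 1) * ((4:ℝ) ^ (l * ((n:ℤ) + 1)) * u l)

/-- LS: sum of the per-line inequality over all lines in direction `v`. -/
def S_LS : Prop :=
  ∀ (n k : ℕ), 1 ≤ k → k < n → ∃ C : ℝ, 0 < C ∧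
    ∀ (F E : Type) [Field F] [Fintype F] [AddCommGroup E] [Module F E] [Fintype E] (v : E), v ≠ 0 →
    ∀ (Λ : Finset ℤ) (B : ℤ → Finset E) (d : ℤ → ℕ),
    (∀ l ∈ Λ, ∀ x : E, (Finset.univ.filter (fun t : F => x + t • v ∈ B l)).card ≤ d l) →
    ∀ f : E → ℝ, (∀ x, 0 ≤ f x) →
    (∀ x, f x ≤ ∑ l ∈ Λ, if x ∈ B l then (4:ℝ) ^ (l * ((k:ℤ) + 1)) else 0) →
    (∑ x : E, (∑ t : F, f (x + t • v)) ^ ((n : ℝ) / (k : ℝ))) / (Fintype.card F : ℝ)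
      ≤ C * ∑ l ∈ Λ, (∑ l' ∈ Λ, (2:ℝ) ^ (-|l - l'|) * ((4:ℝ) ^ l' * (d l' : ℝ)))
            ^ ((n:ℝ) / (k:ℝ) - 1) * ((4:ℝ) ^ (l * ((n:ℤ) + 1)) * ((B l).card : ℝ))

/-- JEN: weighted power mean. -/
def S_JEN : Prop :=
  ∀ (n k : ℕ), 1 ≤ k → k < n → ∀ (Λ : Finset ℤ) (D γ : ℤ → ℝ), (∀ l, 0 ≤ D l) → (∀ l ∈ Λ, 0 ≤ γ l) →
    (∑ l ∈ Λ, (D l) ^ ((n:ℝ) / (k:ℝ) - 1) * γ l) ^ k
      ≤ (∑ l ∈ Λ, γ l) ^ (k-1) * ∑ l ∈ Λ, γ l * (D l) ^ (n - k)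

/-- CONV: convolution with `2^{-|l|}`. -/
def S_CONV : Prop :=
  ∀ (p : ℕ), 1 ≤ p → ∀ (Λ : Finset ℤ) (y : ℤ → ℝ), (∀ l, 0 ≤ y l) → ∀ l : ℤ,
    (∑ l' ∈ Λ, (2:ℝ) ^ (-|l - l'|) * y l') ^ p
      ≤ 3 ^ p * ∑ l' ∈ Λ, (2:ℝ) ^ (-|l - l'|) * (y l') ^ p

/-- The stage inequality. -/
def Stage (n k : ℕ) : Prop :=
  ∃ C : ℝ, 0 < C ∧ ∀ (F E : Type) [Field F] [Fintype F] [AddCommGroup E] [Module F E] [Fintype E],
    Module.finrank F E = n + 1 → ∀ (Λ : Finset ℤ) (P : ℤ → Finset (E × Submodule F E)),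
      (∀ l ∈ Λ, ∀ p ∈ P l, Module.finrank F p.2 = k + 1) →
      ∀ B : ℤ → Finset E, (∀ l ∈ Λ, ∀ x ∈ B l, ∃ p ∈ P l, x - p.1 ∈ p.2) →
      ∀ f : E → ℝ, (∀ x, 0 ≤ f x) →
      (∀ x, f x ≤ ∑ l ∈ Λ, if x ∈ B l then (4:ℝ) ^ (l * ((k:ℤ) + 1)) else 0) →
      ∀ γ : ℤ → ℝ, (∀ l ∈ Λ, (4:ℝ) ^ (l * ((n:ℤ) + 1)) * ((B l).card : ℝ) ≤ γ l) →
      ∀ a : Submodule F E → E,
      ∑ W ∈ Gr F E (k+1), (PS f (a W) W) ^ n
        ≤ C * ((Gr F E (k+1)).card : ℝ) * (∑ l ∈ Λ, γ l) ^ (k-1)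
          * ∑ l ∈ Λ, γ l * ∑ l' ∈ Λ, (2:ℝ) ^ (-|l - l'|) * (4:ℝ) ^ (l' * ((n:ℤ) - (k:ℤ)))
              * ((P l').card : ℝ)

def S_STG : Prop := ∀ (n k : ℕ), 1 ≤ k → k < n → SA n k → L2 (n+1) (k+1) → Stage n k

/-! ### Greedy pruning and summation -/

/-- GR: greedy selection. -/
def S_GR : Prop :=
  ∀ (ι X : Type) (I : Finset ι) (A : ι → Finset X) (S : Finset X), (∀ i ∈ I, A i ⊆ S) →
    ∀ st : ι → ℤ, ∃ Q : Finset ι, Q ⊆ I ∧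
      (∀ i ∈ I, (A i).card ≤ 2 * ((A i).filter (fun x => ∃ j ∈ Q, st i ≤ st j ∧ x ∈ A j)).card) ∧
      ∑ i ∈ Q, (A i).card ≤ 2 * S.card

/-- LEV: level decomposition. -/
def S_LEV : Prop :=
  ∀ (n k : ℕ) (X : Type) [Fintype X] (f : X → ℝ), (∀ x, 0 ≤ f x) →
    ∃ (Λ : Finset ℤ) (S : ℤ → Finset X),
      (∀ l ∈ Λ, (S l).Nonempty) ∧
      (∀ l, ∀ x ∈ S l, (4:ℝ) ^ (l * ((k:ℤ) + 1)) ≤ f x ∧ f x < (4:ℝ) ^ ((l+1) * ((k:ℤ) + 1))) ∧
      (∀ x, 0 < f x → ∃ l ∈ Λ, x ∈ S l) ∧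
      (∀ l l' : ℤ, l ≠ l' → Disjoint (S l) (S l')) ∧
      ∑ l ∈ Λ, (4:ℝ) ^ (l * ((n:ℤ) + 1)) * ((S l).card : ℝ)
        ≤ ∑ x : X, (f x) ^ (((n:ℝ) + 1) / ((k:ℝ) + 1))

/-- ZS: geometric sums. -/
def S_ZS : Prop :=
  (∀ (Λ : Finset ℤ) (l : ℤ), ∑ l' ∈ Λ, (2:ℝ) ^ (-|l - l'|) ≤ 3) ∧
  (∀ (ι : Type) (Q : Finset ι) (st : ι → ℤ) (I : Finset ℤ),
    ∑ i ∈ I, (2:ℝ) ^ i * ((Q.filter (fun w => i ≤ st w)).card : ℝ) ≤ 2 * ∑ w ∈ Q, (2:ℝ) ^ (st w))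

/-- PRN: pruning keeps a fixed proportion of the mass. -/
def S_PRN : Prop :=
  ∀ (k : ℕ) (ι X : Type) [Fintype X] (V : ι → Finset X) (f : X → ℝ), (∀ x, 0 ≤ f x) →
    ∀ (Λ : Finset ℤ) (S : ℤ → Finset X),
      (∀ l, ∀ x ∈ S l, (4:ℝ) ^ (l * ((k:ℤ) + 1)) ≤ f x ∧ f x < (4:ℝ) ^ ((l+1) * ((k:ℤ) + 1))) →
      (∀ x, 0 < f x → ∃ l ∈ Λ, x ∈ S l) →
      (∀ l l' : ℤ, l ≠ l' → Disjoint (S l) (S l')) →
    ∀ c : ℤ → ℝ, (∀ l ∈ Λ, 0 ≤ c l) → ∑ l ∈ Λ, c l ≤ 1 / 2 →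
    ∀ (B : ℤ → Finset X) (w : ι),
      (∀ l ∈ Λ, c l * ∑ x ∈ V w, f x ≤ (4:ℝ) ^ ((l+1) * ((k:ℤ) + 1)) * ((V w ∩ S l).card : ℝ) →
        (V w ∩ S l).card ≤ 2 * (V w ∩ B l).card) →
      ∑ x ∈ V w, f x ≤ (4:ℝ) ^ (k+2) * ∑ x ∈ V w, ∑ l ∈ Λ,
        (if x ∈ B l then (4:ℝ) ^ (l * ((k:ℤ) + 1)) else 0)

/-- ABS: the abstract summation argument. -/
def Abs (n k : ℕ) : Prop :=
  ∃ C : ℝ, 0 < C ∧ ∀ (ι X : Type) [Fintype ι] [Fintype X] (V : ι → Finset X) (A : ℝ), 0 ≤ A →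
    (∀ (Λ : Finset ℤ) (P : ℤ → Finset ι) (B : ℤ → Finset X),
      (∀ l ∈ Λ, ∀ x ∈ B l, ∃ p ∈ P l, x ∈ V p) →
      ∀ γ : ℤ → ℝ, (∀ l ∈ Λ, (4:ℝ) ^ (l * ((n:ℤ) + 1)) * ((B l).card : ℝ) ≤ γ l) →
      ∑ i : ι, (∑ x ∈ V i, ∑ l ∈ Λ, if x ∈ B l then (4:ℝ) ^ (l * ((k:ℤ) + 1)) else 0) ^ n
        ≤ A * (∑ l ∈ Λ, γ l) ^ (k-1)
          * ∑ l ∈ Λ, γ l * ∑ l' ∈ Λ, (2:ℝ) ^ (-|l - l'|) * (4:ℝ) ^ (l' * ((n:ℤ) - (k:ℤ)))
              * ((P l').card : ℝ)) →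
    ∀ f : X → ℝ, (∀ x, 0 ≤ f x) →
      ∑ i : ι, (∑ x ∈ V i, f x) ^ (n+1)
        ≤ C * A * (∑ x : X, (f x) ^ (((n:ℝ) + 1) / ((k:ℝ) + 1))) ^ (k+1)

def S_ABS : Prop := ∀ (n k : ℕ), 1 ≤ k → k < n → Abs n k

def S_STEP : Prop := ∀ (n k : ℕ), 1 ≤ k → k < n → Abs n k → Stage n k → SA (n+1) (k+1)

/-- FIN: the frozen statement from `SA`. -/
def S_FIN : Prop := (∀ n k : ℕ, 0 < k → k < n → SA n k) →
    ∀ n k : ℕ, 0 < k → k < n → ∃ C : ℝ, 0 < C ∧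
      ∀ (F : Type) [Field F] [Fintype F] (f : (Fin n → F) → ℝ),
        (∑ᶠ W : {W : Submodule F (Fin n → F) // Module.finrank F W = k},
            (⨆ a : Fin n → F, ∑ᶠ w : W.1, |f (a + (w : Fin n → F))|) ^ n)
          ≤ C * (Nat.card {W : Submodule F (Fin n → F) // Module.finrank F W = k} : ℝ)
              * (∑ x : Fin n → F, |f x| ^ ((n : ℝ) / k)) ^ k

end Pool.Agent.W770.KP
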